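import Mathlib
import Pool.Agent.Helper56.Swiss.Final
import Pool.Agent.Helper56.Swiss.Stmt

/-! A Swiss cheese whose nonpeak points form one Gleason part of full measure and without point
derivations. -/

namespace Pool.Agent.Results.MP_06dd87_an.SwissCheese

open Pool.Agent.Helper56.Swiss TopologicalSpace MeasureTheory

lemma mem_RAlg_iff {X : Compacts ℂ} {f : C(X, ℂ)} : f ∈ RAlg X ↔ f ∈ Stmt.R X := by
  show f ∈ ((ratAlg X).topologicalClosure : Set C(X, ℂ)) ↔ f ∈ closure {f | Stmt.IsRational X f}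
  rw [Subalgebra.topologicalClosure_coe]
  rfl

lemma peak_iff {X : Compacts ℂ} {x : X} : Stmt.IsPeak X x ↔ IsPeakPoint X x := by
  constructor
  · rintro ⟨f, hf, h⟩
    exact ⟨f, mem_RAlg_iff.mpr hf, h⟩
  · rintro ⟨f, hf, h⟩
    exact ⟨f, mem_RAlg_iff.mp hf, h⟩

lemma part_eq {X : Compacts ℂ} {x : X} : Stmt.part X x = gleasonPart X x := by
  ext y
  constructor
  · rintro ⟨c, hc, h⟩
    have hb : Bd (X : Set ℂ) x y c := by
      intro f hf hfb
      apply h (mkC X f hf) (mem_RAlg_iff.mp (ratAlg_le (mkC_mem f hf)))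
      rw [ContinuousMap.norm_le _ zero_le_one]
      intro z
      exact hfb z z.2
    exact lt_of_le_of_lt hb.norm_le hc
  · intro h
    refine ⟨‖evalAt X x - evalAt X y‖, h, fun f hf hf1 => ?_⟩
    have h1 := (evalAt X x - evalAt X y).le_opNorm ⟨f, mem_RAlg_iff.mpr hf⟩
    have h2 : ‖(⟨f, mem_RAlg_iff.mpr hf⟩ : RAlg X)‖ ≤ 1 := hf1
    have h3 : ‖f x - f y‖ = ‖(evalAt X x - evalAt X y) ⟨f, mem_RAlg_iff.mpr hf⟩‖ := rfl
    rw [h3]
    refine h1.trans ?_
    have h4 := norm_nonneg (evalAt X x - evalAt X y)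
    nlinarith

lemma deriv_zero {X : Compacts ℂ} {x : X}
    (H : ∀ D : RAlg X →L[ℂ] ℂ, IsPointDerivation X x D → D = 0) {D : C(X, ℂ) → ℂ}
    (hD : Stmt.IsPointDerivation X x D) {f : C(X, ℂ)} (hf : f ∈ Stmt.R X) : D f = 0 := by
  obtain ⟨C, hC⟩ := hD.bounded
  let D₀ : RAlg X →ₗ[ℂ] ℂ :=
    { toFun := fun g => D g
      map_add' := fun g k => hD.add g (mem_RAlg_iff.mp g.2) k (mem_RAlg_iff.mp k.2)
      map_smul' := fun c g => hD.smul c g (mem_RAlg_iff.mp g.2) }
  let D₁ : RAlg X →L[ℂ] ℂ := D₀.mkContinuous C (fun g => hC g (mem_RAlg_iff.mp g.2))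
  have h1 : IsPointDerivation X x D₁ := fun g k =>
    hD.product g (mem_RAlg_iff.mp g.2) k (mem_RAlg_iff.mp k.2)
  have h2 := H D₁ h1
  have h3 : D₁ ⟨f, mem_RAlg_iff.mpr hf⟩ = D f := rfl
  rw [← h3, h2]
  rfl

/-- There is a (classical) Swiss cheese `X`, of positive area, such that the nonpeak points of `R(X)`
form exactly one Gleason part, this part has full two-dimensional measure in `X`, and `R(X)` has no
nonzero bounded point derivation at any point of `X`. -/
theorem result : ∃ X : Compacts ℂ, Stmt.IsClassicalSwissCheese (X : Set ℂ) ∧ 0 < volume (X : Set ℂ) ∧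
    (∃ x : X, {y : X | ¬ Stmt.IsPeak X y} = Stmt.part X x ∧
      volume ((X : Set ℂ) \ Subtype.val '' Stmt.part X x) = 0) ∧
    ∀ (x : X) (D : C(X, ℂ) → ℂ), Stmt.IsPointDerivation X x D → ∀ f ∈ Stmt.R X, D f = 0 := by
  obtain ⟨x, hx, _⟩ := theTower.E_nonempty
  refine ⟨theTower.XC, theTower.classical_cheese, theTower.volume_X_pos,
    ⟨⟨x, theTower.E_subset hx⟩, ?_, ?_⟩, fun y D hD f hf => deriv_zero (theTower.no_derivation y) hD hf⟩
  · rw [part_eq, ← theTower.part_eq _ hx]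
    ext y
    exact not_congr peak_iff
  · rw [part_eq]
    exact theTower.part_full _ hx

end Pool.Agent.Results.MP_06dd87_an.SwissCheese
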